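import Pool.Agent.helper99.WN.SpecA

/-!
# Row FO: folding (MP_5c1f29_al)
-/

set_option autoImplicit false

open Classical

namespace Pool.Agent.WN

/-- the folding map -/
noncomputable def FO_f {V : Type} (v1 v2 : V) (h : v1 ≠ v2) (u : V) : {u : V // u ≠ v2} :=
  if hu : u = v2 then ⟨v1, h⟩ else ⟨u, hu⟩

theorem FO_join {V K : Type} [Group K] (S : Set (V × K × V)) (v1 v2 : V) (h : v1 ≠ v2)
    (h1 : PL S v1 v2 1) (u : V) : PL S (FO_f v1 v2 h u).1 u 1 := by
  unfold FO_f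
  split_ifs with hu
  · subst hu
    exact h1
  · exact PL.nil u

theorem FO_path {V : Type} {k : ℕ} (E : Gr V k) (v v1 v2 : V) (a : Lt k) (h1 : Rl E v a v1)
    (h2 : Rl E v a v2) : PL (lf E) v1 v2 1 := by
  unfold Rl at h1 h2
  split_ifs at h1 h2 with ha
  · have e1 : (v, FreeGroup.of a.1, v1) ∈ lf E := ⟨_, h1, rfl⟩
    have e2 : (v, FreeGroup.of a.1, v2) ∈ lf E := ⟨_, h2, rfl⟩
    have := (PL.edge' e1).trans (PL.edge e2)
    rwa [inv_mul_cancel] at this
  · have e1 : (v1, FreeGroup.of a.1, v) ∈ lf E := ⟨_, h1, rfl⟩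
    have e2 : (v2, FreeGroup.of a.1, v) ∈ lf E := ⟨_, h2, rfl⟩
    have := (PL.edge e1).trans (PL.edge' e2)
    rwa [mul_inv_cancel] at this

/-- Folding. -/
theorem FO : FO_stmt := by
  intro V _ k E v0 hE
  obtain ⟨v, a, v1, v2, h1, h2, hne⟩ : ∃ v a v1 v2, Rl E v a v1 ∧ Rl E v a v2 ∧ v1 ≠ v2 := by
    by_contra hcon
    apply hE
    intro v a v1 v2 h1 h2
    by_contra hne
    exact hcon ⟨v, a, v1, v2, h1, h2, hne⟩
  have hp := FO_path E v v1 v2 a h1 h2
  refine ⟨{u : V // u ≠ v2}, inferInstance,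
    E.image (fun e => (FO_f v1 v2 hne e.1, e.2.1, FO_f v1 v2 hne e.2.2)), FO_f v1 v2 hne v0, ?_, ?_⟩
  · have c1 : Fintype.card {u : V // u ≠ v2} < Fintype.card V :=
      Fintype.card_subtype_lt (x := v2) (fun h => h rfl)
    have c2 := Finset.card_image_le (s := E)
      (f := fun e => (FO_f v1 v2 hne e.1, e.2.1, FO_f v1 v2 hne e.2.2))
    omega
  · intro h
    constructor
    · intro hh
      have h3 := PL.map (S' := lf E) (fun u : {u : V // u ≠ v2} => u.1) (by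
        rintro c x d ⟨e', he', hcd⟩
        obtain ⟨e, he, rfl⟩ := Finset.mem_image.1 he'
        obtain ⟨rfl, hx⟩ := Prod.mk.inj hcd
        obtain ⟨rfl, rfl⟩ := Prod.mk.inj hx
        have e1 : (e.1, FreeGroup.of e.2.1, e.2.2) ∈ lf E := ⟨e, he, rfl⟩
        have p := ((FO_join (lf E) v1 v2 hne hp e.1).trans (PL.edge e1)).trans
          (FO_join (lf E) v1 v2 hne hp e.2.2).symm
        rwa [one_mul, inv_one, mul_one] at p) hh
      have p := ((FO_join (lf E) v1 v2 hne hp v0).symm.trans h3).trans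
        (FO_join (lf E) v1 v2 hne hp v0)
      rwa [inv_one, one_mul, mul_one] at p
    · intro hh
      refine PL.map (FO_f v1 v2 hne) ?_ hh
      rintro c x d ⟨e, he, hcd⟩
      obtain ⟨rfl, hx⟩ := Prod.mk.inj hcd
      obtain ⟨rfl, rfl⟩ := Prod.mk.inj hx
      exact PL.edge ⟨_, Finset.mem_image_of_mem _ he, rfl⟩

end Pool.Agent.WN
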